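import Pool.Agent.TH451.MB.Stmt

/-! Common part of the two static theorems for trees with many leaves. -/

namespace Pool.Agent.TH469.MB

open Pool.Agent.TH451.MB Finset

lemma nb_mono {V : Type} (G : SimpleGraph V) (v : V) {R S : Finset V} (h : R ⊆ S) :
    nb G v R ⊆ nb G v S := by
  intro z hz
  rw [mem_nb] at *
  exact ⟨h hz.1, hz.2⟩

/-- expansion inside a set that avoids the hub positions -/
lemma expand_pair {n : ℕ} {G : SimpleGraph (Fin n)} {H : Finset (Fin n)} {s : ℕ}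
    (hG : Expands G H s) {A : Finset (Fin n)} (hA : Disjoint A H) :
    ∀ X Y : Finset (Fin n), X ⊆ A → Y ⊆ A → 2 * s ≤ X.card → 2 * s ≤ Y.card →
      ∃ y ∈ Y, X.card ≤ 80 * (nb G y X).card := by
  classical
  intro X Y hX hY hXs hYs
  obtain ⟨Y', hY'Y, hY'c⟩ := Finset.exists_subset_card_eq (show s ≤ Y.card by omega)
  have hXc : X.card ≤ (X \ Y').card + s := by
    have := Finset.le_card_sdiff Y' X
    omega
  obtain ⟨y, hy, hyc⟩ := hG.p2 (X \ Y') Y' (Finset.sdiff_disjoint)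
    (hA.mono_left ((Finset.sdiff_subset).trans hX)) (hA.mono_left (hY'Y.trans hY))
    (by omega) (by omega)
  refine ⟨y, hY'Y hy, ?_⟩
  have h2 := Finset.card_le_card (nb_mono G y (Finset.sdiff_subset : X \ Y' ⊆ X))
  omega

/-- the vertices of the tree that are embedded before the final matching step -/
noncomputable def Fs {n : ℕ} (T : SimpleGraph (Fin n)) (P : Finset (Fin n)) : Finset (Fin n) :=
  (univ \ lv T) ∪ P

lemma mem_Fs {n : ℕ} {T : SimpleGraph (Fin n)} {P : Finset (Fin n)} {t : Fin n} :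
    t ∈ Fs T P ↔ t ∉ lv T ∨ t ∈ P := by
  simp [Fs]

lemma compl_Fs {n : ℕ} (T : SimpleGraph (Fin n)) (P : Finset (Fin n)) :
    univ \ Fs T P = lv T \ P := by
  ext t
  rw [mem_sdiff, mem_sdiff, mem_Fs]
  simp

lemma leaf_nbr (hLS : StLeafStructure) {n : ℕ} (T : SimpleGraph (Fin n)) (P : Finset (Fin n))
    (hT : T.IsTree) (hn : 3 ≤ n) (t : Fin n) (ht : t ∉ Fs T P) :
    ∃ a ∈ Fs T P, ∀ b, T.Adj t b ↔ b = a := by
  rw [mem_Fs, not_or, not_not] at ht
  have ht1 : (nb T t univ).card = 1 := by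
    have := ht.1
    rw [lv, mem_filter] at this
    exact this.2
  obtain ⟨a, ha2, ha⟩ := (hLS T hT hn t).2 ht1
  refine ⟨a, ?_, ha⟩
  rw [mem_Fs]
  left
  rw [lv, mem_filter]
  rintro ⟨_, h⟩
  omega

/-- double counting of the edges between `F` and its complement -/
lemma sum_demand {n : ℕ} (T : SimpleGraph (Fin n)) (F : Finset (Fin n))
    (hleaf : ∀ t, t ∉ F → ∃ a ∈ F, ∀ b, T.Adj t b ↔ b = a) :
    ∑ t ∈ F, (nb T t (univ \ F)).card = (univ \ F).card := by
  classical
  have h1 : ∑ t ∈ F, (nb T t (univ \ F)).card = ∑ z ∈ univ \ F, (nb T z F).card := by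
    have h := Finset.sum_card_bipartiteAbove_eq_sum_card_bipartiteBelow
      (s := F) (t := univ \ F) (fun a b => T.Adj a b)
    have e1 : ∀ t ∈ F, (nb T t (univ \ F)).card =
        ((univ \ F).bipartiteAbove (fun a b => T.Adj a b) t).card := by
      intro t _
      have h' : nb T t (univ \ F) = (univ \ F).bipartiteAbove (fun a b => T.Adj a b) t := by
        ext z
        rw [mem_nb, Finset.mem_bipartiteAbove]
      rw [h']
    have e2 : ∀ z ∈ univ \ F, (nb T z F).card =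
        (F.bipartiteBelow (fun a b => T.Adj a b) z).card := by
      intro z _
      have h' : nb T z F = F.bipartiteBelow (fun a b => T.Adj a b) z := by
        ext t
        rw [mem_nb, Finset.mem_bipartiteBelow, T.adj_comm]
      rw [h']
    rw [Finset.sum_congr rfl e1, Finset.sum_congr rfl e2, h]
  rw [h1]
  have h2 : ∀ z ∈ univ \ F, (nb T z F).card = 1 := by
    intro z hz
    obtain ⟨a, haF, ha⟩ := hleaf z (by simpa using hz)
    rw [Finset.card_eq_one]
    refine ⟨a, ?_⟩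
    ext b
    rw [mem_nb, mem_singleton]
    constructor
    · rintro ⟨_, h⟩
      exact (ha b).1 h
    · rintro rfl
      exact ⟨haF, (ha _).2 rfl⟩
  rw [Finset.sum_congr rfl h2]
  simp

theorem core (hE : StEmbed) {n : ℕ} (s : ℕ) (hs : 1 ≤ s) (T : SimpleGraph (Fin n)) (hT : T.IsTree)
    (hl : n < 1000 * (lv T).card) (Δ : ℕ) (hΔ : ∀ t, (nb T t univ).card ≤ Δ)
    (hubs P : Finset (Fin n)) (hhP : hubs ⊆ P) (hPl : (P ∩ lv T).card ≤ 1)
    (hclosed : ∀ t, t ∉ P → ∀ a ∈ P, ∀ b ∈ P, T.Adj t a → T.Adj t b → a = b)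
    (φ₀ : Fin n → Fin n) (hinj : Set.InjOn φ₀ (P : Set (Fin n)))
    (W0 : Finset (Fin n)) (hW0 : Disjoint W0 (P.image φ₀)) (hW0c : 2 * W0.card ≤ (lv T).card)
    (G : SimpleGraph (Fin n)) (hG : Expands G (hubs.image φ₀) s)
    (hadj : ∀ a ∈ P, ∀ b ∈ P, T.Adj a b → G.Adj (φ₀ a) (φ₀ b))
    (hdeg : ∀ c ∈ P, n ≤ 10 ^ 5 * (nb G (φ₀ c) (univ \ (W0 ∪ P.image φ₀))).card)
    (R : ℕ) (hR : ∑ c ∈ P, resv 80 (2 * s) P.card (nb T c univ).card ≤ R) (hRn : 10 ^ 5 * R ≤ n)
    (hnum : 2000 * (R + 80 * (Δ + (P.card + 1) * (2 * s)) +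
      (P.card + 1) * (2 * s) * (Nat.log 2 n + 1 + 1) + 2 * s + 1) ≤ n) :
    ∃ φ : Fin n → Fin n, Set.InjOn φ (Fs T P : Set (Fin n)) ∧ (∀ a ∈ P, φ a = φ₀ a) ∧
      (∀ a ∈ Fs T P, ∀ b ∈ Fs T P, T.Adj a b → G.Adj (φ a) (φ b)) ∧
      W0 ⊆ univ \ (Fs T P).image φ ∧
      (univ \ (Fs T P).image φ).card = (lv T \ P).card := by
  classical
  set A : Finset (Fin n) := univ \ (W0 ∪ P.image φ₀) with hA
  have hPF : P ⊆ Fs T P := subset_union_right
  have hAP : ∀ a ∈ P, φ₀ a ∉ A := by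
    intro a ha
    rw [hA, mem_sdiff, not_and, not_not]
    intro _
    exact mem_union_right _ (mem_image_of_mem _ ha)
  have hAH : Disjoint A (hubs.image φ₀) := by
    rw [Finset.disjoint_left]
    intro x hx hx'
    obtain ⟨t, ht, rfl⟩ := mem_image.1 hx'
    exact hAP t (hhP ht) hx
  have hAc : A.card + W0.card + P.card = n := by
    have h1 : (P.image φ₀).card = P.card := Finset.card_image_of_injOn hinj
    have h2 : (W0 ∪ P.image φ₀).card = W0.card + P.card := by
      rw [Finset.card_union_of_disjoint hW0, h1]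
    have h3 : A.card + (W0 ∪ P.image φ₀).card = n := by
      have := Finset.card_sdiff_add_card_eq_card (Finset.subset_univ (W0 ∪ P.image φ₀))
      rw [Finset.card_univ, Fintype.card_fin] at this
      exact this
    omega
  have hFc : (Fs T P \ P).card + (lv T).card + P.card ≤ n + 1 := by
    have h1 : Fs T P \ P = univ \ (lv T ∪ P) := by
      ext t
      rw [mem_sdiff, mem_Fs, mem_sdiff, mem_union]
      constructor
      · rintro ⟨h | h, h'⟩
        · exact ⟨mem_univ _, by tauto⟩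
        · exact absurd h h'
      · rintro ⟨_, h⟩
        rw [not_or] at h
        exact ⟨Or.inl h.1, h.2⟩
    have h2 : (Fs T P \ P).card + (lv T ∪ P).card = n := by
      have := Finset.card_sdiff_add_card_eq_card (Finset.subset_univ (lv T ∪ P))
      rw [Finset.card_univ, Fintype.card_fin] at this
      rw [h1]
      exact this
    have h3 := Finset.card_union_add_card_inter (lv T) P
    rw [Finset.inter_comm] at h3
    omega
  have hres : ∀ c ∈ P, resv 80 (2 * s) P.card (nb T c (Fs T P \ P)).card ≤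
      resv 80 (2 * s) P.card (nb T c univ).card := by
    intro c _
    unfold resv
    have := Finset.card_le_card (nb_mono T c (subset_univ (Fs T P \ P)))
    omega
  have hsum : ∑ c ∈ P, resv 80 (2 * s) P.card (nb T c (Fs T P \ P)).card ≤ R :=
    (Finset.sum_le_sum hres).trans hR
  have hb : (Fs T P \ P).card ≤ 2 ^ (Nat.log 2 n + 1) := by
    have h1 : (Fs T P \ P).card ≤ n := by
      have := Finset.card_le_univ (Fs T P \ P)
      rwa [Fintype.card_fin] at this
    exact h1.trans (Nat.lt_pow_succ_log_self (by norm_num) n).le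
  obtain ⟨φ, hφinj, hφ0, hφA, hφadj⟩ := hE (Fin n) (Fin n) G T hT.2 (Fs T P) P hPF φ₀ hinj hadj
    (fun t ht a ha b hb h1 h2 => hclosed t (mem_sdiff.1 ht).2 a ha b hb h1 h2)
    A hAP 80 (2 * s) Δ (Nat.log 2 n + 1) (by norm_num) (by omega) hb
    (expand_pair hG hAH)
    (fun t _ => (Finset.card_le_card (nb_mono T t (subset_univ _))).trans (hΔ t))
    (by
      intro c hc
      have h1 := hdeg c hc
      refine hsum.trans ?_
      have h2 : 10 ^ 5 * R ≤ 10 ^ 5 * (nb G (φ₀ c) A).card := hRn.trans h1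
      exact Nat.le_of_mul_le_mul_left h2 (by norm_num))
    (by
      generalize (∑ c ∈ P, resv 80 (2 * s) P.card (nb T c (Fs T P \ P)).card) = S at hsum ⊢
      generalize (P.card + 1) * (2 * s) * (Nat.log 2 n + 1 + 1) = M1 at hnum ⊢
      generalize (P.card + 1) * (2 * s) = M2 at hnum ⊢
      omega)
  refine ⟨φ, hφinj, hφ0, hφadj, ?_, ?_⟩
  · intro w hw
    rw [mem_sdiff]
    refine ⟨mem_univ _, ?_⟩
    intro hw'
    obtain ⟨t, ht, rfl⟩ := mem_image.1 hw'
    by_cases htP : t ∈ P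
    · rw [hφ0 t htP] at hw
      exact (Finset.disjoint_left.1 hW0) hw (mem_image_of_mem _ htP)
    · have := hφA t (mem_sdiff.2 ⟨ht, htP⟩)
      rw [hA, mem_sdiff] at this
      exact this.2 (mem_union_left _ hw)
  · rw [← compl_Fs]
    rw [Finset.card_sdiff_of_subset (subset_univ _), Finset.card_sdiff_of_subset (subset_univ _),
      Finset.card_image_of_injOn hφinj]

/-- the logarithm is small -/
lemma log_small {n : ℕ} (hn : 2 ^ 100 ≤ n) : 10 ^ 20 * (Nat.log 2 n + 2) ^ 2 ≤ n := by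
  have h1 : ∀ m : ℕ, 100 ≤ m → 10 ^ 20 * (m + 2) ^ 2 ≤ 2 ^ m := by
    intro m hm
    induction m, hm using Nat.le_induction with
    | base => norm_num
    | succ k hk ih =>
      have h : (k + 1 + 2) ^ 2 ≤ 2 * (k + 2) ^ 2 := by nlinarith
      calc 10 ^ 20 * (k + 1 + 2) ^ 2 ≤ 10 ^ 20 * (2 * (k + 2) ^ 2) := Nat.mul_le_mul_left _ h
        _ = 2 * (10 ^ 20 * (k + 2) ^ 2) := by ring
        _ ≤ 2 * 2 ^ k := Nat.mul_le_mul_left _ ih
        _ = 2 ^ (k + 1) := by rw [pow_succ]; ring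
  have hn0 : n ≠ 0 := by
    rintro rfl
    norm_num at hn
  have h2 : 100 ≤ Nat.log 2 n := Nat.le_log_of_pow_le (by norm_num) hn
  have h3 : 2 ^ Nat.log 2 n ≤ n := Nat.pow_log_le_self 2 hn0
  exact (h1 _ h2).trans h3

end Pool.Agent.TH469.MB
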