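import Pool.Agent.TH451.MB.Stmt
import Pool.Agent.TH469.MB_Core

/-! The static theorem for trees with many leaves in which some vertices have a large demand. -/

namespace Pool.Agent.TH469.MB

open Pool.Agent.TH451.MB Finset

theorem leafy1 (hE : StEmbed) (hLC : StLeafClose) (hH : StHall1) (hLS : StLeafStructure) :
    StLeafy1 := by
  classical
  refine ⟨10 ^ 40, ?_⟩
  intro n hn s hs hsn T hT hl hΔ d hd hfew hubs P hhP hhc hPc hPl hhd hclosed φ₀ hinj W0 hW0 hW0c
    G hG hadj hW0d hdeg hdom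
  -- numerical facts
  have hs2 : 10 ^ 12 * s ^ 2 ≤ n := by
    rcases le_total s (10 ^ 4) with h | h
    · calc 10 ^ 12 * s ^ 2 ≤ 10 ^ 12 * (10 ^ 4) ^ 2 :=
            Nat.mul_le_mul_left _ (Nat.pow_le_pow_left h 2)
        _ ≤ 10 ^ 40 := by norm_num
        _ ≤ n := hn
    · calc 10 ^ 12 * s ^ 2 = (10 ^ 4) ^ 3 * s ^ 2 := by norm_num
        _ ≤ s ^ 3 * s ^ 2 := Nat.mul_le_mul_right _ (Nat.pow_le_pow_left h 3)
        _ = s ^ 5 := by ring
        _ ≤ n := hsn
  have hs1 : s ≤ s ^ 2 := by nlinarith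
  have hL := log_small (n := n) (le_trans (by norm_num) hn)
  have hsL : s * (Nat.log 2 n + 2) * 2 ≤ s ^ 2 + (Nat.log 2 n + 2) ^ 2 := by
    zify
    nlinarith [sq_nonneg ((s : ℤ) - (Nat.log 2 n + 2))]
  have hΔ' : ∀ t, (nb T t univ).card ≤ n / 10 ^ 10 := by
    intro t
    rw [Nat.le_div_iff_mul_le (by norm_num)]
    linarith [hΔ t]
  have hdiv : 10 ^ 10 * (n / 10 ^ 10) ≤ n := Nat.mul_div_le n (10 ^ 10)
  have hPlv : P ∩ lv T = ∅ := by
    ext t
    simp only [mem_inter, notMem_empty, iff_false, not_and]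
    exact hPl t
  have hlvP : lv T \ P = lv T := by
    ext t
    rw [mem_sdiff]
    exact ⟨fun h => h.1, fun h => ⟨h, fun h' => hPl t h' h⟩⟩
  have hp1 : (P.card + 1) * (2 * s) ≤ 10 * s := by nlinarith
  have hR : ∑ c ∈ P, resv 80 (2 * s) P.card (nb T c univ).card ≤ 320 * (n / 10 ^ 10) + 3208 * s := by
    calc ∑ c ∈ P, resv 80 (2 * s) P.card (nb T c univ).card
        ≤ ∑ c ∈ P, (80 * (n / 10 ^ 10) + 802 * s) := by
          apply Finset.sum_le_sum
          intro c _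
          unfold resv
          have := hΔ' c
          omega
      _ = P.card * (80 * (n / 10 ^ 10) + 802 * s) := by rw [Finset.sum_const, smul_eq_mul]
      _ ≤ 4 * (80 * (n / 10 ^ 10) + 802 * s) := Nat.mul_le_mul_right _ hPc
      _ = 320 * (n / 10 ^ 10) + 3208 * s := by ring
  have hp2 : (P.card + 1) * (2 * s) * (Nat.log 2 n + 1 + 1) ≤ 10 * (s * (Nat.log 2 n + 2)) := by
    calc (P.card + 1) * (2 * s) * (Nat.log 2 n + 1 + 1) ≤ 10 * s * (Nat.log 2 n + 2) :=
          Nat.mul_le_mul_right _ hp1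
      _ = 10 * (s * (Nat.log 2 n + 2)) := by ring
  obtain ⟨φ, hφinj, hφ0, hφadj, hW0W, hWc⟩ := core hE s hs T hT hl (n / 10 ^ 10) hΔ' hubs P hhP
    (by rw [hPlv]; simp) hclosed φ₀ hinj W0 hW0 hW0c G hG hadj hdeg
    (320 * (n / 10 ^ 10) + 3208 * s) hR
    (by omega)
    (by
      generalize (P.card + 1) * (2 * s) * (Nat.log 2 n + 1 + 1) = M1 at hp2 ⊢
      generalize (P.card + 1) * (2 * s) = M2 at hp1 ⊢
      generalize s * (Nat.log 2 n + 2) = M3 at hp2 hsL
      generalize (Nat.log 2 n + 2) ^ 2 = M4 at hL hsL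
      generalize s ^ 2 = M5 at hs2 hs1 hsL
      omega)
  have hleaf := leaf_nbr hLS T P hT (by omega)
  have hPF : P ⊆ Fs T P := subset_union_right
  have hcF : univ \ Fs T P = lv T := by rw [compl_Fs, hlvP]
  have hWmem : ∀ w ∈ univ \ (Fs T P).image φ, w ∉ P.image φ₀ := by
    intro w hw hw'
    obtain ⟨t, ht, rfl⟩ := mem_image.1 hw'
    rw [mem_sdiff] at hw
    exact hw.2 (mem_image.2 ⟨t, hPF ht, hφ0 t ht⟩)
  have hWl : (univ \ (Fs T P).image φ).card = (lv T).card := by rw [hWc, hlvP]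
  apply hLC (Fin n) (Fin n) G T rfl (Fs T P) hleaf φ hφinj hφadj
  refine hH (Fin n) (Fin n) G (hubs.image φ₀) s hG (Fs T P) φ hφinj
    (fun t => (nb T t (univ \ Fs T P)).card) (univ \ (Fs T P).image φ) ?_ ?_ hubs
    (hhP.trans hPF) (by omega) ?_ ?_ d ?_ (n / 10 ^ 10) ((lv T).card / 1000) ?_ ?_ ?_ ?_ ?_ hd ?_ ?_
  · rw [Finset.disjoint_left]
    intro w hw hw'
    exact hWmem w hw (image_subset_image hhP hw')
  · intro t ht h
    rw [mem_sdiff] at h
    exact h.2 (mem_image_of_mem _ ht)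
  · intro t ht h
    obtain ⟨t', ht', he⟩ := mem_image.1 h
    rw [← hφ0 t' (hhP ht')] at he
    have := hφinj (hPF (hhP ht')) ht he
    rwa [← this]
  · rw [sum_demand T (Fs T P) hleaf, hWc, compl_Fs]
  · refine le_trans (Finset.card_le_card ?_) hfew
    intro t ht
    rw [mem_filter] at ht ⊢
    rw [hcF] at ht
    exact ⟨mem_univ _, ht.2⟩
  · intro t _
    exact (Finset.card_le_card (nb_mono T t (subset_univ _))).trans (hΔ' t)
  · intro t _
    have h1 := hW0d (φ t)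
    have h2 := Finset.card_le_card (nb_mono G (φ t) hW0W)
    omega
  · rw [Fintype.card_fin, hWl]
    omega
  · omega
  · rw [hWl]
    omega
  · intro t ht
    show d ≤ (nb T t (univ \ Fs T P)).card
    rw [hcF]
    exact hhd t ht
  · intro w hw
    obtain ⟨t, ht, h⟩ := hdom w (hWmem w hw)
    exact ⟨t, ht, by rw [hφ0 t (hhP ht)]; exact h⟩

end Pool.Agent.TH469.MB
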