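import Pool.Agent.TH451.MB.Stmt
import Pool.Agent.TH469.MB_Core

/-! The static theorem for trees with many leaves in which no vertex has a large demand. -/

namespace Pool.Agent.TH469.MB

open Pool.Agent.TH451.MB Finset

theorem leafy2 (hE : StEmbed) (hLC : StLeafClose) (hH : StHall2) (hLS : StLeafStructure) :
    StLeafy2 := by
  classical
  refine ⟨10 ^ 40, ?_⟩
  intro n hn s hs hsn T hT hl hΔ d hd hfew hubs P hhP hhc hPc hPl hPadj hPsum hclosed φ₀ hinj W0
    hW0 hW0c G hG hadj hW0d hdeg hmany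
  -- numerical facts
  have hs4 : 10 ^ 30 * s ^ 4 ≤ n := by
    rcases le_total s (10 ^ 2) with h | h
    · calc 10 ^ 30 * s ^ 4 ≤ 10 ^ 30 * (10 ^ 2) ^ 4 :=
            Nat.mul_le_mul_left _ (Nat.pow_le_pow_left h 4)
        _ ≤ 10 ^ 40 := by norm_num
        _ ≤ n := hn
    · calc 10 ^ 30 * s ^ 4 ≤ (10 ^ 2) ^ 16 * s ^ 4 := Nat.mul_le_mul_right _ (by norm_num)
        _ ≤ s ^ 16 * s ^ 4 := Nat.mul_le_mul_right _ (Nat.pow_le_pow_left h 16)
        _ = s ^ 20 := by ring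
        _ ≤ n := hsn
  have hs1 : s ≤ s ^ 2 := by nlinarith
  have hs2 : s ^ 2 ≤ s ^ 3 := Nat.pow_le_pow_right hs (by norm_num)
  have hs3 : s ^ 3 ≤ s ^ 4 := Nat.pow_le_pow_right hs (by norm_num)
  have hL := log_small (n := n) (le_trans (by norm_num) hn)
  have hsL : s ^ 2 * (Nat.log 2 n + 2) * 2 ≤ s ^ 4 + (Nat.log 2 n + 2) ^ 2 := by
    zify
    nlinarith [sq_nonneg ((s : ℤ) ^ 2 - (Nat.log 2 n + 2))]
  have hΔ' : ∀ t, (nb T t univ).card ≤ n / 10 ^ 10 := by
    intro t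
    rw [Nat.le_div_iff_mul_le (by norm_num)]
    linarith [hΔ t]
  have hdiv : 10 ^ 10 * (n / 10 ^ 10) ≤ n := Nat.mul_div_le n (10 ^ 10)
  have hp1 : (P.card + 1) * (2 * s) ≤ 202 * s ^ 2 := by nlinarith
  have hR : ∑ c ∈ P, resv 80 (2 * s) P.card (nb T c univ).card ≤
      80 * (∑ c ∈ P, (nb T c univ).card) + 1616200 * s ^ 3 := by
    calc ∑ c ∈ P, resv 80 (2 * s) P.card (nb T c univ).card
        = ∑ c ∈ P, (80 * (nb T c univ).card + (80 * ((P.card + 1) * (2 * s)) + 2 * s)) := by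
          apply Finset.sum_congr rfl
          intro c _
          unfold resv
          ring
      _ = 80 * (∑ c ∈ P, (nb T c univ).card) + P.card * (80 * ((P.card + 1) * (2 * s)) + 2 * s) := by
          rw [Finset.sum_add_distrib, Finset.sum_const, smul_eq_mul, Finset.mul_sum]
      _ ≤ 80 * (∑ c ∈ P, (nb T c univ).card) + (100 * s) * (16162 * s ^ 2) := by
          apply Nat.add_le_add_left
          apply Nat.mul_le_mul hPc
          omega
      _ = 80 * (∑ c ∈ P, (nb T c univ).card) + 1616200 * s ^ 3 := by ring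
  have hp2 : (P.card + 1) * (2 * s) * (Nat.log 2 n + 1 + 1) ≤
      202 * (s ^ 2 * (Nat.log 2 n + 2)) := by
    calc (P.card + 1) * (2 * s) * (Nat.log 2 n + 1 + 1) ≤ 202 * s ^ 2 * (Nat.log 2 n + 2) :=
          Nat.mul_le_mul_right _ hp1
      _ = 202 * (s ^ 2 * (Nat.log 2 n + 2)) := by ring
  obtain ⟨φ, hφinj, hφ0, hφadj, hW0W, hWc⟩ := core hE s hs T hT hl (n / 10 ^ 10) hΔ' hubs P hhP
    hPl hclosed φ₀ hinj W0 hW0 hW0c G hG hadj hdeg
    (80 * (∑ c ∈ P, (nb T c univ).card) + 1616200 * s ^ 3) hR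
    (by
      generalize (∑ c ∈ P, (nb T c univ).card) = S at hPsum ⊢
      generalize s ^ 4 = M5 at hs4 hs3
      generalize s ^ 3 = M6 at hs3 ⊢
      omega)
    (by
      generalize (∑ c ∈ P, (nb T c univ).card) = S at hPsum ⊢
      generalize (P.card + 1) * (2 * s) * (Nat.log 2 n + 1 + 1) = M1 at hp2 ⊢
      generalize (P.card + 1) * (2 * s) = M2 at hp1 ⊢
      generalize s ^ 2 * (Nat.log 2 n + 2) = M3 at hp2 hsL
      generalize (Nat.log 2 n + 2) ^ 2 = M4 at hL hsL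
      generalize s ^ 4 = M5 at hs4 hs3 hsL
      generalize s ^ 3 = M6 at hs3 hs2 ⊢
      generalize s ^ 2 = M7 at hs2 hs1 hp1
      omega)
  have hleaf := leaf_nbr hLS T P hT (by omega)
  have hPF : P ⊆ Fs T P := subset_union_right
  have hWmem : ∀ w ∈ univ \ (Fs T P).image φ, w ∉ P.image φ₀ := by
    intro w hw hw'
    obtain ⟨t, ht, rfl⟩ := mem_image.1 hw'
    rw [mem_sdiff] at hw
    exact hw.2 (mem_image.2 ⟨t, hPF ht, hφ0 t ht⟩)
  have hWl : (lv T).card ≤ (univ \ (Fs T P).image φ).card + 1 := by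
    rw [hWc]
    have h1 := Finset.card_sdiff_add_card_inter (lv T) P
    rw [Finset.inter_comm] at h1
    omega
  apply hLC (Fin n) (Fin n) G T rfl (Fs T P) hleaf φ hφinj hφadj
  refine hH (Fin n) (Fin n) G (hubs.image φ₀) s hG (Fs T P) φ hφinj
    (fun t => (nb T t (univ \ Fs T P)).card) (univ \ (Fs T P).image φ) ?_ ?_ hubs
    (hhP.trans hPF) hhc ?_ ?_ d ?_ (n / 10 ^ 10) ((lv T).card / 1000) ?_ ?_ ?_ ?_ ?_ hs hd ?_ ?_
  · rw [Finset.disjoint_left]
    intro w hw hw'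
    exact hWmem w hw (image_subset_image hhP hw')
  · intro t ht h
    rw [mem_sdiff] at h
    exact h.2 (mem_image_of_mem _ ht)
  · intro t ht h
    obtain ⟨t', ht', he⟩ := mem_image.1 h
    rw [← hφ0 t' (hhP ht')] at he
    have := hφinj (hPF (hhP ht')) ht he
    rwa [← this]
  · rw [sum_demand T (Fs T P) hleaf, hWc, compl_Fs]
  · refine le_trans (Finset.card_le_card ?_) hfew
    intro t ht
    rw [mem_filter] at ht ⊢
    refine ⟨mem_univ _, lt_of_lt_of_le ht.2 (Finset.card_le_card (nb_mono T t ?_))⟩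
    rw [compl_Fs]
    exact sdiff_subset
  · intro t _
    exact (Finset.card_le_card (nb_mono T t (subset_univ _))).trans (hΔ' t)
  · intro t _
    have h1 := hW0d (φ t)
    have h2 := Finset.card_le_card (nb_mono G (φ t) hW0W)
    omega
  · rw [Fintype.card_fin]
    omega
  · omega
  · omega
  · have h1 : 8 * s * (s + 20000) ≤ 160008 * s ^ 2 := by nlinarith
    refine h1.trans ?_
    generalize s ^ 4 = M5 at hs4 hs3
    generalize s ^ 3 = M6 at hs3 hs2
    generalize s ^ 2 = M7 at hs2 ⊢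
    omega
  · intro w hw
    obtain ⟨Y, hYP, hYs, hY⟩ := hmany w (hWmem w hw)
    refine ⟨Y, hYP.trans hPF, hYs, ?_⟩
    intro t ht
    obtain ⟨h1, h2⟩ := hY t ht
    refine ⟨?_, by rw [hφ0 t (hYP ht)]; exact h2⟩
    show 1 ≤ (nb T t (univ \ Fs T P)).card
    rw [compl_Fs]
    exact h1

end Pool.Agent.TH469.MB
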